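import Mathlib

/-!
# Expanded cliques and bounded matching number: the conjectured Turán number is too small

For all `ℓ ≥ r ≥ 3` and all `s ≥ (ℓ choose 2)` such that
`s (ℓ-1)(ℓ-2)⋯(ℓ-r+1) < (ℓ choose 2) (ℓ-1)^(r-1)` (in particular for `s = (ℓ choose 2)`), we show
`ex_r(n, {H_{ℓ+1}^r, M_{s+1}^r}) > s * t_{r-1}(n-s, ℓ-1)` for all large `n`.
-/

namespace Pool.Agent.Results.MP_f4e9fb_co.TooManyEdges

open Finset

/-- The vertex set of the expanded clique `H_{q}^r`: the `q` vertices of the complete graph and,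
for each of its edges (2-element sets) `p`, the `r - 2` new vertices `(p, 0), ..., (p, r - 3)`. -/
abbrev ExpV (r q : ℕ) : Type := Fin q ⊕ ({p : Finset (Fin q) // p.card = 2} × Fin (r - 2))

/-- The edge of `H_{q}^r` obtained from the edge `p` of the complete graph on `q` vertices. -/
def expEdge (r q : ℕ) (p : {p : Finset (Fin q) // p.card = 2}) : Finset (ExpV r q) :=
  p.1.map Function.Embedding.inl ∪ univ.image fun j : Fin (r - 2) => Sum.inr (p, j)

/-- `G` contains a copy of the expanded clique `H_q^r`. -/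
def ContainsExp {n : ℕ} (r q : ℕ) (G : Finset (Finset (Fin n))) : Prop :=
  ∃ f : ExpV r q → Fin n, Function.Injective f ∧ ∀ p, (expEdge r q p).image f ∈ G

/-- `G` contains `s` pairwise disjoint edges. -/
def ContainsMatching {n : ℕ} (s : ℕ) (G : Finset (Finset (Fin n))) : Prop :=
  ∃ M ⊆ G, M.card = s ∧ (M : Set (Finset (Fin n))).Pairwise Disjoint

/-- `G` is an `{H_{ℓ+1}^r, M_{s+1}^r}`-free `r`-graph on the vertex set `Fin n`. -/
def IsFree {n : ℕ} (r ℓ s : ℕ) (G : Finset (Finset (Fin n))) : Prop :=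
  (∀ e ∈ G, e.card = r) ∧ ¬ ContainsExp r (ℓ + 1) G ∧ ¬ ContainsMatching (s + 1) G

/-- `ex_r(n, {H_{ℓ+1}^r, M_{s+1}^r})`, the maximum number of edges. -/
noncomputable def exNum (r n ℓ s : ℕ) : ℕ :=
  sSup {m | ∃ G : Finset (Finset (Fin n)), IsFree r ℓ s G ∧ G.card = m}

/-- The generalized Turán graph `T_k(m, q)`: the parts are the residue classes modulo `q`, the
edges are the `k`-sets meeting each part in at most one vertex. -/
def turan (k m q : ℕ) : Finset (Finset (Fin m)) :=
  univ.filter fun e => e.card = k ∧ ∀ x ∈ e, ∀ y ∈ e, (x : ℕ) % q = (y : ℕ) % q → x = y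

/-! ### The construction -/

/-- All `r`-sets with exactly one vertex among the first `c` vertices. -/
def star (n r c : ℕ) : Finset (Finset (Fin n)) :=
  univ.filter fun e => e.card = r ∧ (e.filter fun v : Fin n => (v : ℕ) < c).card = 1

lemma star_matching {n r c s : ℕ} (hcs : c ≤ s) : ¬ ContainsMatching (s + 1) (star n r c) := by
  rintro ⟨M, hM, hcard, hdis⟩
  have h1 : ∀ e ∈ M, ∃ v : Fin n, v ∈ e ∧ (v : ℕ) < c := by
    intro e he
    have := hM he
    simp only [star, mem_filter, mem_univ, true_and] at this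
    obtain ⟨v, hv⟩ : (e.filter fun v : Fin n => (v : ℕ) < c).Nonempty := card_pos.1 (by omega)
    rw [mem_filter] at hv
    exact ⟨v, hv⟩
  have hn : Nonempty (Fin n) := by
    obtain ⟨e, he⟩ : M.Nonempty := card_pos.1 (by omega)
    exact ⟨(h1 e he).choose⟩
  choose! g hg1 hg2 using h1
  have h2 : M.card ≤ (range c).card := by
    apply card_le_card_of_injOn (fun e => (g e : ℕ))
    · intro e he
      simpa using hg2 e he
    · intro e he e' he' h
      by_contra hne
      have hd := hdis he he' hne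
      have h3 : g e = g e' := Fin.ext h
      exact (Finset.disjoint_left.1 hd) (hg1 e he) (h3 ▸ hg1 e' he')
  rw [hcard, card_range] at h2
  omega

lemma star_noExp {n r ℓ : ℕ} (hr : 3 ≤ r) (hℓ : r ≤ ℓ) :
    ¬ ContainsExp r (ℓ + 1) (star n r (ℓ.choose 2)) := by
  rintro ⟨f, hf, hE⟩
  classical
  set c := ℓ.choose 2 with hc
  -- each edge has exactly one vertex mapped below `c`
  have h1 : ∀ p, ((expEdge r (ℓ + 1) p).filter fun u => (f u : ℕ) < c).card = 1 := by
    intro p
    have := hE p
    simp only [star, mem_filter, mem_univ, true_and] at this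
    have h2 := this.2
    rwa [filter_image, card_image_of_injective _ hf] at h2
  have huniq : ∀ p, ∀ u ∈ expEdge r (ℓ + 1) p, ∀ v ∈ expEdge r (ℓ + 1) p,
      (f u : ℕ) < c → (f v : ℕ) < c → u = v := by
    intro p u hu v hv hfu hfv
    obtain ⟨w, hw⟩ := card_eq_one.1 (h1 p)
    have h2 : u ∈ ({w} : Finset _) := hw ▸ mem_filter.2 ⟨hu, hfu⟩
    have h3 : v ∈ ({w} : Finset _) := hw ▸ mem_filter.2 ⟨hv, hfv⟩
    rw [mem_singleton] at h2 h3
    rw [h2, h3]
  have hexist : ∀ p, ∃ u ∈ expEdge r (ℓ + 1) p, (f u : ℕ) < c := by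
    intro p
    obtain ⟨w, hw⟩ := card_eq_one.1 (h1 p)
    have : w ∈ (expEdge r (ℓ + 1) p).filter fun u => (f u : ℕ) < c := by rw [hw]; simp
    rw [mem_filter] at this
    exact ⟨w, this⟩
  have hcore : ∀ (p : {p : Finset (Fin (ℓ + 1)) // p.card = 2}) (i : Fin (ℓ + 1)), i ∈ p.1 →
      (Sum.inl i : ExpV r (ℓ + 1)) ∈ expEdge r (ℓ + 1) p := by
    intro p i hi
    simp only [expEdge, mem_union, mem_map]
    exact Or.inl ⟨i, hi, rfl⟩
  -- at most one core vertex is mapped below `c`
  have hone : ∀ i j : Fin (ℓ + 1), (f (Sum.inl i) : ℕ) < c → (f (Sum.inl j) : ℕ) < c → i = j := by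
    intro i j hi hj
    by_contra hij
    let p : {p : Finset (Fin (ℓ + 1)) // p.card = 2} := ⟨{i, j}, card_pair hij⟩
    have := huniq p _ (hcore p i (by simp [p])) _ (hcore p j (by simp [p])) hi hj
    exact hij (Sum.inl_injective this)
  -- the core vertex, if any, is `i0`
  obtain ⟨i0, hi0⟩ : ∃ i0 : Fin (ℓ + 1), ∀ i, (f (Sum.inl i) : ℕ) < c → i = i0 := by
    by_cases h : ∃ i : Fin (ℓ + 1), (f (Sum.inl i) : ℕ) < c
    · obtain ⟨i, hi⟩ := h
      exact ⟨i, fun j hj => hone j i hj hi⟩
    · push Not at h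
      exact ⟨0, fun i hi => absurd hi (not_lt.2 (h i))⟩
  -- private vertices of the pairs avoiding `i0`
  have hpriv : ∀ p : {p : Finset (Fin (ℓ + 1)) // p.card = 2}, i0 ∉ p.1 →
      ∃ j : Fin (r - 2), (f (Sum.inr (p, j)) : ℕ) < c := by
    intro p hp
    obtain ⟨u, hu, hfu⟩ := hexist p
    simp only [expEdge, mem_union, mem_map, mem_image, mem_univ, true_and] at hu
    rcases hu with ⟨i, hi, rfl⟩ | ⟨j, rfl⟩
    · have : i = i0 := hi0 i hfu
      subst this
      exact absurd hi hp
    · exact ⟨j, hfu⟩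
  -- count
  let P : Finset (Finset (Fin (ℓ + 1))) := powersetCard 2 (univ.erase i0)
  have hPcard : P.card = c := by
    simp [P, hc]
  -- one more vertex mapped below `c`
  have hextra : ∃ u : ExpV r (ℓ + 1), (f u : ℕ) < c ∧
      ∀ (p : {p : Finset (Fin (ℓ + 1)) // p.card = 2}) (j : Fin (r - 2)), i0 ∉ p.1 →
        u ≠ Sum.inr (p, j) := by
    obtain ⟨i1, hi1⟩ : ∃ i1 : Fin (ℓ + 1), i1 ≠ i0 := by
      have : Nontrivial (Fin (ℓ + 1)) := by
        rw [Fin.nontrivial_iff_two_le]; omega
      exact exists_ne i0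
    let p1 : {p : Finset (Fin (ℓ + 1)) // p.card = 2} := ⟨{i0, i1}, card_pair hi1.symm⟩
    obtain ⟨u, hu, hfu⟩ := hexist p1
    refine ⟨u, hfu, ?_⟩
    rintro p j hp rfl
    simp only [expEdge, mem_union, mem_map, mem_image, mem_univ, true_and] at hu
    rcases hu with ⟨i, _, h⟩ | ⟨j', h⟩
    · simp at h
    · simp only [Sum.inr.injEq, Prod.mk.injEq] at h
      apply hp
      rw [← h.1]
      simp [p1]
  obtain ⟨u, hfu, hu⟩ := hextra
  have hne : Nonempty (Fin (r - 2)) := ⟨⟨0, by omega⟩⟩
  choose! g hg using hpriv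
  let P' : Finset {p : Finset (Fin (ℓ + 1)) // p.card = 2} := univ.filter fun p => i0 ∉ p.1
  have hP'card : P'.card = c := by
    rw [← hPcard]
    refine card_bij (fun p _ => p.1) ?_ ?_ ?_
    · intro p hp
      simp only [P', mem_filter, mem_univ, true_and] at hp
      simp only [P, mem_powersetCard]
      refine ⟨fun i hi => mem_erase.2 ⟨?_, mem_univ _⟩, p.2⟩
      rintro rfl
      exact hp hi
    · intro p _ q _ h
      exact Subtype.ext h
    · intro p hp
      simp only [P, mem_powersetCard] at hp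
      refine ⟨⟨p, hp.2⟩, ?_, rfl⟩
      simp only [P', mem_filter, mem_univ, true_and]
      intro h
      have := hp.1 h
      simp at this
  have hsub : insert (f u : ℕ) (P'.image fun p => (f (Sum.inr (p, g p)) : ℕ)) ⊆ range c := by
    intro x hx
    rw [mem_insert, mem_image] at hx
    rw [mem_range]
    rcases hx with rfl | ⟨p, hp, rfl⟩
    · exact hfu
    · simp only [P', mem_filter, mem_univ, true_and] at hp
      exact hg p hp
  have hcardle := card_le_card hsub
  rw [card_insert_of_notMem, card_image_of_injective, hP'card, card_range] at hcardle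
  · omega
  · intro p p' h
    have h2 := hf (Fin.ext h)
    simp only [Sum.inr.injEq, Prod.mk.injEq] at h2
    exact h2.1
  · intro h
    rw [mem_image] at h
    obtain ⟨p, hp, h⟩ := h
    simp only [P', mem_filter, mem_univ, true_and] at hp
    have h2 := hf (Fin.ext h)
    exact hu _ _ hp h2.symm

lemma star_free {n r ℓ s : ℕ} (hr : 3 ≤ r) (hℓ : r ≤ ℓ) (hs : ℓ.choose 2 ≤ s) :
    IsFree r ℓ s (star n r (ℓ.choose 2)) := by
  refine ⟨?_, star_noExp hr hℓ, star_matching hs⟩
  intro e he
  simp only [star, mem_filter, mem_univ, true_and] at he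
  exact he.1

/-! ### Counting -/

lemma star_card {n k c : ℕ} (hc : c ≤ n) :
    c * (n - c).choose k ≤ (star n (k + 1) c).card := by
  classical
  let A : Finset (Fin n) := univ.filter fun v => (v : ℕ) < c
  let B : Finset (Fin n) := univ.filter fun v => ¬ (v : ℕ) < c
  have hA : A.card = c := by
    have : A = univ.map (Fin.castLEEmb hc) := by
      ext v
      simp only [A, mem_filter, mem_univ, true_and, mem_map]
      constructor
      · intro h
        exact ⟨⟨v, h⟩, rfl⟩
      · rintro ⟨w, rfl⟩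
        simp
    rw [this, card_map, card_univ, Fintype.card_fin]
  have hB : B.card = n - c := by
    have h1 := card_filter_add_card_filter_not (s := (univ : Finset (Fin n)))
      (fun v : Fin n => (v : ℕ) < c)
    have h2 : (univ : Finset (Fin n)).card = n := by simp
    have h3 : A.card + B.card = n := h1.trans h2
    omega
  have h1 : (A ×ˢ powersetCard k B).card = c * (n - c).choose k := by
    rw [card_product, card_powersetCard, hA, hB]
  rw [← h1]
  have hmem : ∀ q ∈ A ×ˢ powersetCard k B, (q.1 : ℕ) < c ∧ q.2.card = k ∧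
      (∀ v ∈ q.2, ¬ (v : ℕ) < c) := by
    intro q hq
    simp only [mem_product, mem_powersetCard, A, B, mem_filter, mem_univ, true_and] at hq
    refine ⟨hq.1, hq.2.2, fun v hv => ?_⟩
    have := hq.2.1 hv
    simpa using this
  have hfil : ∀ q ∈ A ×ˢ powersetCard k B,
      (insert q.1 q.2).filter (fun v : Fin n => (v : ℕ) < c) = {q.1} := by
    intro q hq
    obtain ⟨h2, h3, h4⟩ := hmem q hq
    ext v
    simp only [mem_filter, mem_insert, mem_singleton]
    constructor
    · rintro ⟨rfl | h, h'⟩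
      · rfl
      · exact absurd h' (h4 v h)
    · rintro rfl
      exact ⟨Or.inl rfl, h2⟩
  apply card_le_card_of_injOn (fun q => insert q.1 q.2)
  · intro q hq
    rw [mem_coe] at hq ⊢
    obtain ⟨h2, h3, h4⟩ := hmem q hq
    simp only [star, mem_filter, mem_univ, true_and]
    refine ⟨?_, ?_⟩
    · rw [card_insert_of_notMem, h3]
      intro h
      exact h4 _ h h2
    · rw [hfil q hq]; simp
  · intro q hq q' hq' h
    rw [mem_coe] at hq hq'
    simp only at h
    have h5 := hfil q hq
    rw [h, hfil q' hq'] at h5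
    have h6 : q.1 = q'.1 := (singleton_injective h5).symm
    have hnot : q.1 ∉ q.2 := fun h7 => (hmem q hq).2.2 _ h7 (hmem q hq).1
    have hnot' : q'.1 ∉ q'.2 := fun h7 => (hmem q' hq').2.2 _ h7 (hmem q' hq').1
    refine Prod.ext h6 ?_
    rw [← erase_insert hnot, ← erase_insert hnot', h, h6]

lemma class_card (m q : ℕ) (hq : 0 < q) (i : Fin q) :
    (univ.filter fun v : Fin m => (v : ℕ) % q = i).card ≤ m / q + 1 := by
  have h1 : (univ.filter fun v : Fin m => (v : ℕ) % q = i).card =
      ((range m).filter fun v => v % q = i).card := by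
    refine card_bij (fun v _ => (v : ℕ)) ?_ ?_ ?_
    · intro v hv
      simp only [mem_filter, mem_univ, true_and, mem_range] at hv ⊢
      exact ⟨v.2, hv⟩
    · intro a _ b _ h
      exact Fin.ext h
    · intro v hv
      simp only [mem_filter, mem_range] at hv
      exact ⟨⟨v, hv.1⟩, by simp [hv.2], rfl⟩
  rw [h1]
  have h2 : ((range m).filter fun v => v % q = i).card = m.count (fun v => v ≡ i [MOD q]) := by
    rw [Nat.count_eq_card_filter_range]
    congr 1
    ext v
    simp only [mem_filter, Nat.ModEq, Nat.mod_eq_of_lt i.2]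
  rw [h2, Nat.count_modEq_card _ hq]
  split_ifs <;> omega

lemma turan_card (k m q : ℕ) (hq : 0 < q) :
    (turan k m q).card ≤ q.choose k * (m / q + 1) ^ k := by
  classical
  let cls : Fin q → Finset (Fin m) := fun i => univ.filter fun v => (v : ℕ) % q = i
  let res : Fin m → Fin q := fun v => ⟨(v : ℕ) % q, Nat.mod_lt _ hq⟩
  have hsub : turan k m q ⊆ (powersetCard k (univ : Finset (Fin q))).biUnion fun R =>
      (R.pi cls).image fun g => R.attach.image fun i => g i.1 i.2 := by
    intro e he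
    simp only [turan, mem_filter, mem_univ, true_and] at he
    have hinj : Set.InjOn res e := by
      intro x hx y hy h
      exact he.2 x hx y hy (congrArg Fin.val h)
    rw [mem_biUnion]
    refine ⟨e.image res, ?_, ?_⟩
    · rw [mem_powersetCard]
      exact ⟨subset_univ _, by rw [card_image_of_injOn hinj, he.1]⟩
    · have hch : ∀ i ∈ e.image res, ∃ v ∈ e, res v = i := by
        intro i hi
        simpa using hi
      choose g hg1 hg2 using hch
      rw [mem_image]
      refine ⟨g, ?_, ?_⟩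
      · rw [mem_pi]
        intro i hi
        simp only [cls, mem_filter, mem_univ, true_and]
        exact congrArg Fin.val (hg2 i hi)
      · ext v
        simp only [mem_image, mem_attach, true_and, Subtype.exists]
        constructor
        · rintro ⟨i, hi, rfl⟩
          exact hg1 i (mem_image.2 hi)
        · intro hv
          refine ⟨res v, ⟨v, hv, rfl⟩, ?_⟩
          exact hinj (hg1 _ _) hv (hg2 _ _)
  calc (turan k m q).card ≤ _ := card_le_card hsub
    _ ≤ ∑ R ∈ powersetCard k (univ : Finset (Fin q)),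
        ((R.pi cls).image fun g => R.attach.image fun i => g i.1 i.2).card := card_biUnion_le
    _ ≤ ∑ R ∈ powersetCard k (univ : Finset (Fin q)), (m / q + 1) ^ k := by
        apply sum_le_sum
        intro R hR
        rw [mem_powersetCard] at hR
        refine card_image_le.trans ?_
        rw [card_pi]
        calc ∏ i ∈ R, (cls i).card ≤ ∏ i ∈ R, (m / q + 1) :=
              prod_le_prod' fun i _ => class_card m q hq i
          _ = (m / q + 1) ^ k := by rw [prod_const, hR.2]
    _ = q.choose k * (m / q + 1) ^ k := by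
        rw [sum_const, card_powersetCard]; simp

lemma asymp (A B a q : ℝ) (k : ℕ) (h : A < B) :
    ∀ᶠ n : ℕ in Filter.atTop, A * ((n : ℝ) + q) ^ k < B * ((n : ℝ) - a) ^ k := by
  have h1 : Filter.Tendsto (fun n : ℕ => A * (1 + q / (n : ℝ)) ^ k) Filter.atTop
      (nhds (A * (1 + 0) ^ k)) :=
    ((tendsto_const_nhds.add
      (Filter.Tendsto.const_div_atTop tendsto_natCast_atTop_atTop q)).pow k).const_mul A
  have h2 : Filter.Tendsto (fun n : ℕ => B * (1 - a / (n : ℝ)) ^ k) Filter.atTop
      (nhds (B * (1 - 0) ^ k)) :=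
    ((tendsto_const_nhds.sub
      (Filter.Tendsto.const_div_atTop tendsto_natCast_atTop_atTop a)).pow k).const_mul B
  rw [add_zero, one_pow, mul_one] at h1
  rw [sub_zero, one_pow, mul_one] at h2
  filter_upwards [h1.eventually_lt h2 h, Filter.eventually_ge_atTop 1] with n hn hn1
  have hn0 : (0 : ℝ) < n := by exact_mod_cast hn1
  have e1 : (n : ℝ) + q = n * (1 + q / n) := by field_simp
  have e2 : (n : ℝ) - a = n * (1 - a / n) := by field_simp
  rw [e1, e2, mul_pow, mul_pow]
  have : (0 : ℝ) < (n : ℝ) ^ k := by positivity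
  nlinarith

lemma count_ineq (s c k q : ℕ) (hq : 0 < q) (h : s * q.descFactorial k < c * q ^ k) :
    ∀ᶠ n : ℕ in Filter.atTop, s * (turan k (n - s) q).card < c * (n - c).choose k := by
  have h1 : ((s * q.descFactorial k : ℕ) : ℝ) < ((c * q ^ k : ℕ) : ℝ) := by exact_mod_cast h
  filter_upwards [asymp _ _ ((c : ℝ) + k) q k h1, Filter.eventually_ge_atTop (c + k)] with n hn hn1
  have h2 : (turan k (n - s) q).card ≤ q.choose k * (n / q + 1) ^ k := by
    refine (turan_card k (n - s) q hq).trans ?_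
    gcongr
    omega
  have h3 : (n - c - k) ^ k ≤ (n - c).descFactorial k := by
    refine le_trans ?_ (Nat.pow_sub_le_descFactorial (n - c) k)
    gcongr
    omega
  rw [Nat.descFactorial_eq_factorial_mul_choose] at h3
  have h4 : q * (n / q + 1) ≤ n + q := by
    rw [Nat.mul_add, Nat.mul_one]
    exact Nat.add_le_add_right (Nat.mul_div_le n q) q
  have h5 : (((n - c - k : ℕ) : ℕ) : ℝ) = (n : ℝ) - ((c : ℝ) + k) := by
    rw [Nat.cast_sub (by omega), Nat.cast_sub (by omega)]
    ring
  have h6 : s * q.descFactorial k * (n + q) ^ k < c * q ^ k * (n - c - k) ^ k := by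
    have : ((s * q.descFactorial k * (n + q) ^ k : ℕ) : ℝ) <
        ((c * q ^ k * (n - c - k) ^ k : ℕ) : ℝ) := by
      push_cast [h5]
      push_cast at hn
      convert hn using 2
    exact_mod_cast this
  -- multiply everything by `k! * q ^ k`
  have h7 : (k.factorial * q ^ k) * (s * (turan k (n - s) q).card) <
      (k.factorial * q ^ k) * (c * (n - c).choose k) := by
    calc (k.factorial * q ^ k) * (s * (turan k (n - s) q).card)
        ≤ (k.factorial * q ^ k) * (s * (q.choose k * (n / q + 1) ^ k)) := by gcongr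
      _ = s * (k.factorial * q.choose k) * (q * (n / q + 1)) ^ k := by
          rw [mul_pow]; ring
      _ ≤ s * (k.factorial * q.choose k) * (n + q) ^ k := by gcongr
      _ = s * q.descFactorial k * (n + q) ^ k := by
          rw [Nat.descFactorial_eq_factorial_mul_choose]
      _ < c * q ^ k * (n - c - k) ^ k := h6
      _ ≤ c * q ^ k * (k.factorial * (n - c).choose k) := by gcongr
      _ = (k.factorial * q ^ k) * (c * (n - c).choose k) := by ring
  exact lt_of_mul_lt_mul_left h7 (Nat.zero_le _)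

lemma le_exNum {n r ℓ s : ℕ} {G : Finset (Finset (Fin n))} (hG : IsFree r ℓ s G) :
    G.card ≤ exNum r n ℓ s := by
  apply le_csSup
  · refine ⟨Fintype.card (Finset (Fin n)), ?_⟩
    rintro _ ⟨G', _, rfl⟩
    exact card_le_univ _
  · exact ⟨G, hG, rfl⟩

/-- **Main result.** Let `ℓ ≥ r ≥ 3`.
(1) For every `s ≥ (ℓ choose 2)` with
`s (ℓ-1)(ℓ-2)⋯(ℓ-r+1) < (ℓ choose 2) (ℓ-1)^(r-1)` and for all large `n`,
`ex_r(n, {H_{ℓ+1}^r, M_{s+1}^r}) > s * t_{r-1}(n-s, ℓ-1)`.
(2) In particular this holds for `s = (ℓ choose 2)`. -/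
theorem result (r ℓ : ℕ) (hr : 3 ≤ r) (hℓ : r ≤ ℓ) :
    (∀ s : ℕ, ℓ.choose 2 ≤ s →
      s * (ℓ - 1).descFactorial (r - 1) < ℓ.choose 2 * (ℓ - 1) ^ (r - 1) →
        ∀ᶠ n : ℕ in Filter.atTop,
          s * (turan (r - 1) (n - s) (ℓ - 1)).card < exNum r n ℓ s) ∧
      ∀ᶠ n : ℕ in Filter.atTop,
        ℓ.choose 2 * (turan (r - 1) (n - ℓ.choose 2) (ℓ - 1)).card <
          exNum r n ℓ (ℓ.choose 2) := by
  have main : ∀ s : ℕ, ℓ.choose 2 ≤ s →
      s * (ℓ - 1).descFactorial (r - 1) < ℓ.choose 2 * (ℓ - 1) ^ (r - 1) →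
        ∀ᶠ n : ℕ in Filter.atTop,
          s * (turan (r - 1) (n - s) (ℓ - 1)).card < exNum r n ℓ s := by
    intro s hs h
    filter_upwards [count_ineq s (ℓ.choose 2) (r - 1) (ℓ - 1) (by omega) h,
      Filter.eventually_ge_atTop (ℓ.choose 2)] with n hn hn1
    refine hn.trans_le ?_
    have h1 := star_card (n := n) (k := r - 1) hn1
    have h2 : r - 1 + 1 = r := by omega
    rw [h2] at h1
    exact h1.trans (le_exNum (star_free hr hℓ hs))
  refine ⟨main, main _ le_rfl ?_⟩
  have hpos : 0 < ℓ.choose 2 := Nat.choose_pos (by omega)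
  apply Nat.mul_lt_mul_of_pos_left _ hpos
  exact Nat.descFactorial_lt_pow (by omega) (by omega)

end Pool.Agent.Results.MP_f4e9fb_co.TooManyEdges
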